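import Mathlib

/-!
# MP_3240be_co: sparse systems (helper70, finding 4819), tree graphs

A system for a graph `P` on `Y` consists of bodies `δ m : Y → V` (copies of `P`), any two of them
with at most one common vertex.  `TD`: graphs which are obtained from bodies and bipartite graphs by
gluing along a vertex or an edge.
-/

set_option autoImplicit false

namespace MP3240SSL

open Finset Function

section
variable {V M Y : Type}

/-- The edges of the body `m`. -/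
def Bod (δ : M → Y → V) (P : SimpleGraph Y) (m : M) (x y : V) : Prop :=
  ∃ t t', x = δ m t ∧ y = δ m t' ∧ P.Adj t t'

/-- Tree graphs: the bodies used, the edges, the vertices. -/
inductive TD (δ : M → Y → V) (P : SimpleGraph Y) : Set M → (V → V → Prop) → Set V → Prop
  | bod (m : M) : TD δ P {m} (Bod δ P m) (Set.range (δ m))
  | bip (Γ : V → V → Prop) (A : Set V) (f : V → Bool) (h : ∀ x y, Γ x y → f x ≠ f y)
      (hA : ∀ x y, Γ x y → x ∈ A ∧ y ∈ A) (hs : ∀ x y, Γ x y → Γ y x) : TD δ P ∅ Γ A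
  | glu {S1 S2 : Set M} {Γ1 Γ2 : V → V → Prop} {A1 A2 : Set V} (a b : V)
      (h1 : TD δ P S1 Γ1 A1) (h2 : TD δ P S2 Γ2 A2) (hd : ∀ m, m ∈ S1 → m ∉ S2)
      (hA : ∀ x, x ∈ A1 → x ∈ A2 → x = a ∨ x = b) (hab : a = b ∨ (Γ1 a b ∧ Γ2 a b)) :
      TD δ P (S1 ∪ S2) (fun x y => Γ1 x y ∨ Γ2 x y) (A1 ∪ A2)

variable {δ : M → Y → V} {P : SimpleGraph Y}

theorem TD.congr {S S' : Set M} {Γ Γ' : V → V → Prop} {A A' : Set V} (h : TD δ P S Γ A)
    (hS : ∀ m, m ∈ S ↔ m ∈ S') (hΓ : ∀ x y, Γ x y ↔ Γ' x y) (hA : ∀ x, x ∈ A ↔ x ∈ A') :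
    TD δ P S' Γ' A' := by
  have e1 : S = S' := Set.ext hS
  have e2 : Γ = Γ' := funext fun x => funext fun y => propext (hΓ x y)
  have e3 : A = A' := Set.ext hA
  rw [← e1, ← e2, ← e3]
  exact h

theorem TD.mem {S : Set M} {Γ : V → V → Prop} {A : Set V} (h : TD δ P S Γ A) :
    ∀ x y, Γ x y → x ∈ A ∧ y ∈ A := by
  induction h with
  | bod m =>
    rintro x y ⟨t, t', rfl, rfl, _⟩
    exact ⟨⟨t, rfl⟩, ⟨t', rfl⟩⟩
  | bip Γ A f h hA hs => exact hA
  | glu a b h1 h2 hd hA hab ih1 ih2 =>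
    rintro x y (h | h)
    · exact ⟨Or.inl (ih1 x y h).1, Or.inl (ih1 x y h).2⟩
    · exact ⟨Or.inr (ih2 x y h).1, Or.inr (ih2 x y h).2⟩

theorem TD.symm {S : Set M} {Γ : V → V → Prop} {A : Set V} (h : TD δ P S Γ A) :
    ∀ x y, Γ x y → Γ y x := by
  induction h with
  | bod m =>
    rintro x y ⟨t, t', h1, h2, h3⟩
    exact ⟨t', t, h2, h1, h3.symm⟩
  | bip Γ A f h hA hs => exact hs
  | glu a b h1 h2 hd hA hab ih1 ih2 =>
    rintro x y (h | h)
    · exact Or.inl (ih1 x y h)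
    · exact Or.inr (ih2 x y h)

/-- The bodies used are contained in the tree graph. -/
theorem TD.body {S : Set M} {Γ : V → V → Prop} {A : Set V} (h : TD δ P S Γ A) :
    ∀ m ∈ S, ∀ x y, Bod δ P m x y → Γ x y := by
  induction h with
  | bod m =>
    intro m' hm'
    rw [Set.mem_singleton_iff] at hm'
    subst hm'
    exact fun x y h => h
  | bip Γ A f h hA hs => exact fun m hm => absurd hm (Set.notMem_empty m)
  | glu a b h1 h2 hd hA hab ih1 ih2 =>
    rintro m (hm | hm) x y h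
    · exact Or.inl (ih1 m hm x y h)
    · exact Or.inr (ih2 m hm x y h)

/-- Transport of tree graphs. -/
theorem TD.map {V' M' : Type} {δ' : M' → Y → V'} (ι : V → V') (ρ : V' → V)
    (hρ : ∀ x, ρ (ι x) = x) (κ : M → M') (hκ : Injective κ)
    (hδ : ∀ m y, δ' (κ m) y = ι (δ m y)) {S : Set M} {Γ : V → V → Prop} {A : Set V}
    (h : TD δ P S Γ A) :
    TD δ' P (κ '' S) (fun x y => ∃ x0 y0, x = ι x0 ∧ y = ι y0 ∧ Γ x0 y0) (ι '' A) := by
  induction h with
  | bod m =>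
    refine (TD.bod (κ m)).congr ?_ ?_ ?_
    · intro m'
      simp
    · intro x y
      constructor
      · rintro ⟨t, t', rfl, rfl, h⟩
        exact ⟨δ m t, δ m t', hδ m t, hδ m t', t, t', rfl, rfl, h⟩
      · rintro ⟨x0, y0, rfl, rfl, t, t', rfl, rfl, h⟩
        exact ⟨t, t', (hδ m t).symm, (hδ m t').symm, h⟩
    · intro x
      constructor
      · rintro ⟨t, rfl⟩
        exact ⟨δ m t, ⟨t, rfl⟩, (hδ m t).symm⟩
      · rintro ⟨_, ⟨t, rfl⟩, rfl⟩
        exact ⟨t, hδ m t⟩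
  | bip Γ A f h hA hs =>
    refine (TD.bip (fun x y => ∃ x0 y0, x = ι x0 ∧ y = ι y0 ∧ Γ x0 y0) (ι '' A) (fun x => f (ρ x))
      ?_ ?_ ?_).congr ?_ ?_ ?_
    · rintro x y ⟨x0, y0, rfl, rfl, h'⟩
      simp only [hρ]
      exact h _ _ h'
    · rintro x y ⟨x0, y0, rfl, rfl, h'⟩
      exact ⟨⟨x0, (hA _ _ h').1, rfl⟩, ⟨y0, (hA _ _ h').2, rfl⟩⟩
    · rintro x y ⟨x0, y0, rfl, rfl, h'⟩
      exact ⟨y0, x0, rfl, rfl, hs _ _ h'⟩
    · intro m
      simp
    · exact fun x y => Iff.rfl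
    · exact fun x => Iff.rfl
  | glu a b h1 h2 hd hA hab ih1 ih2 =>
    refine (TD.glu (ι a) (ι b) ih1 ih2 ?_ ?_ ?_).congr ?_ ?_ ?_
    · rintro _ ⟨m, hm, rfl⟩ ⟨m', hm', he⟩
      rw [hκ he] at hm'
      exact hd m hm hm'
    · rintro _ ⟨x, hx, rfl⟩ ⟨x', hx', he⟩
      have : x' = x := by rw [← hρ x', he, hρ]
      subst this
      rcases hA x' hx hx' with rfl | rfl
      · exact Or.inl rfl
      · exact Or.inr rfl
    · rcases hab with rfl | ⟨h3, h4⟩
      · exact Or.inl rfl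
      · exact Or.inr ⟨⟨a, b, rfl, rfl, h3⟩, ⟨a, b, rfl, rfl, h4⟩⟩
    · intro m
      rw [Set.image_union]
    · intro x y
      constructor
      · rintro (⟨x0, y0, hx, hy, h⟩ | ⟨x0, y0, hx, hy, h⟩)
        · exact ⟨x0, y0, hx, hy, Or.inl h⟩
        · exact ⟨x0, y0, hx, hy, Or.inr h⟩
      · rintro ⟨x0, y0, hx, hy, h | h⟩
        · exact Or.inl ⟨x0, y0, hx, hy, h⟩
        · exact Or.inr ⟨x0, y0, hx, hy, h⟩
    · intro x
      rw [Set.image_union]

/-- The empty tree graph. -/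
theorem TD.nil (δ : M → Y → V) (P : SimpleGraph Y) : TD δ P ∅ (fun _ _ => False) ∅ :=
  TD.bip _ _ (fun _ => true) (fun _ _ h => h.elim) (fun _ _ h => h.elim) (fun _ _ h => h)

end

/-! ## Systems -/

/-- A system of copies of `P`. -/
structure Sys {Y : Type} (P : SimpleGraph Y) where
  V : Type
  M : Type
  fV : Finite V
  fM : Finite M
  δ : M → Y → V
  part : V → Y
  hp : ∀ m y, part (δ m y) = y
  lin : ∀ m m', m ≠ m' → ∀ y y', δ m y = δ m' y → δ m y' = δ m' y' → y = y'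

namespace Sys

variable {Y : Type} {P : SimpleGraph Y}

theorem inj (Z : Sys P) (m : Z.M) : Injective (Z.δ m) := by
  intro y y' h
  rw [← Z.hp m y, h, Z.hp]

/-- The graph of the system. -/
def Phi (Z : Sys P) : SimpleGraph Z.V where
  Adj x y := ∃ m, Bod Z.δ P m x y
  symm := ⟨fun _ _ ⟨m, t, t', h1, h2, h3⟩ => ⟨m, t', t, h2, h1, h3.symm⟩⟩
  loopless := ⟨fun _ ⟨m, _, _, h1, h2, h3⟩ => h3.ne (Z.inj m (h1.symm.trans h2))⟩

/-- Small sets of bodies are in tree graphs. -/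
def Spa (Z : Sys P) (g : ℕ) : Prop :=
  ∀ S : Finset Z.M, S.card ≤ g → ∃ (S' : Set Z.M) (Γ : Z.V → Z.V → Prop) (A : Set Z.V),
    TD Z.δ P S' Γ A ∧ ∀ m ∈ S, m ∈ S'

end Sys

/-- A complete bipartite graph of colour `b`. -/
def Kbb {V : Type} (n : ℕ) (G : SimpleGraph V) (c : V → V → Bool) (b : Bool) : Prop :=
  ∃ e e' : Fin n → V, Injective e ∧ Injective e' ∧ ∀ i j, G.Adj (e i) (e' j) ∧ c (e i) (e' j) = b

/-- A colouring without complete bipartite graphs of colour `b` has a body all whose edges in `E`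
have the other colour. -/
def Sys.Rob {Y : Type} {P : SimpleGraph Y} (Z : Sys P) (n : ℕ) (E : Set (Sym2 Y)) : Prop :=
  ∀ c : Z.V → Z.V → Bool, (∀ x y, c x y = c y x) → ∀ b, Kbb n Z.Phi c b ∨
    ∃ m, ∀ y y', P.Adj y y' → s(y, y') ∈ E → c (Z.δ m y) (Z.δ m y') = !b

end MP3240SSL
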