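import Pool.Agent.Lib.MP_3240be_co.SSL8.Td

/-!
# MP_3240be_co: sparse systems (helper70, finding 4819), the amalgam

`amg Z β`: for every body `j` of the system `β` for the graph of the edges of type `v w` of `Z` a
copy of `Z`, whose vertices of parts `v`, `w` are identified with the body `j` of `β`.
-/

set_option autoImplicit false

namespace MP3240SSL

open Finset Function

section
variable {Y : Type} {P : SimpleGraph Y}

/-- The edges of type `v w` of a system. -/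
def Sys.Ge (Z : Sys P) {v w : Y} (hvw : v ≠ w) : SimpleGraph Z.V where
  Adj x y := ∃ m, (x = Z.δ m v ∧ y = Z.δ m w) ∨ (x = Z.δ m w ∧ y = Z.δ m v)
  symm := ⟨fun _ _ ⟨m, h⟩ => ⟨m, h.symm.imp (fun h => ⟨h.2, h.1⟩) (fun h => ⟨h.2, h.1⟩)⟩⟩
  loopless := ⟨fun _ ⟨m, h⟩ => by
    rcases h with ⟨h1, h2⟩ | ⟨h1, h2⟩
    · exact hvw (Z.inj m (h1.symm.trans h2))
    · exact hvw (Z.inj m (h2.symm.trans h1))⟩

theorem Sys.Ge_of (Z : Sys P) {v w : Y} (hvw : v ≠ w) (m : Z.M) :
    (Z.Ge hvw).Adj (Z.δ m v) (Z.δ m w) := ⟨m, Or.inl ⟨rfl, rfl⟩⟩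

theorem Sys.Ge_part (Z : Sys P) {v w : Y} (hvw : v ≠ w) {x y : Z.V} (h : (Z.Ge hvw).Adj x y) :
    (Z.part x = v ∧ Z.part y = w) ∨ (Z.part x = w ∧ Z.part y = v) := by
  obtain ⟨m, ⟨rfl, rfl⟩ | ⟨rfl, rfl⟩⟩ := h
  · exact Or.inl ⟨Z.hp _ _, Z.hp _ _⟩
  · exact Or.inr ⟨Z.hp _ _, Z.hp _ _⟩

variable (Z : Sys P) {v w : Y} (hvw : v ≠ w) (β : Sys (Z.Ge hvw))

/-- The vertices of the amalgam. -/
abbrev AV : Type := β.V ⊕ (β.M × Z.V)

open Classical in
/-- The copy `j` of `Z`. -/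
noncomputable def emb (j : β.M) (x : Z.V) : AV Z hvw β :=
  if Z.part x = v ∨ Z.part x = w then .inl (β.δ j x) else .inr (j, x)

/-- The vertex of `Z`. -/
def rho : AV Z hvw β → Z.V
  | .inl z => β.part z
  | .inr p => p.2

theorem rho_emb (j : β.M) (x : Z.V) : rho Z hvw β (emb Z hvw β j x) = x := by
  unfold emb
  split_ifs
  · exact β.hp j x
  · rfl

theorem emb_inl {j : β.M} {x : Z.V} {z : β.V} (h : emb Z hvw β j x = .inl z) :
    (Z.part x = v ∨ Z.part x = w) ∧ z = β.δ j x := by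
  unfold emb at h
  split_ifs at h with h1
  exact ⟨h1, (Sum.inl.inj h).symm⟩

theorem emb_inr {j : β.M} {x : Z.V} {p : β.M × Z.V} (h : emb Z hvw β j x = .inr p) :
    p = (j, x) := by
  unfold emb at h
  split_ifs at h with h1
  exact (Sum.inr.inj h).symm

theorem emb_of {j : β.M} {x : Z.V} (h : Z.part x = v ∨ Z.part x = w) :
    emb Z hvw β j x = .inl (β.δ j x) := by
  unfold emb
  rw [if_pos h]

/-- The amalgam. -/
noncomputable def amg : Sys P where
  V := AV Z hvw β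
  M := β.M × Z.M
  fV := by
    have := β.fV
    have := β.fM
    have := Z.fV
    infer_instance
  fM := by
    have := β.fM
    have := Z.fM
    infer_instance
  δ p y := emb Z hvw β p.1 (Z.δ p.2 y)
  part u := Z.part (rho Z hvw β u)
  hp p y := by
    rw [rho_emb, Z.hp]
  lin := by
    rintro ⟨j, m⟩ ⟨j', m'⟩ hne y y' h1 h2
    simp only at h1 h2
    by_cases hj : j = j'
    · subst hj
      have hm : m ≠ m' := fun e => hne (by rw [e])
      have e1 := congrArg (rho Z hvw β) h1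
      have e2 := congrArg (rho Z hvw β) h2
      rw [rho_emb, rho_emb] at e1 e2
      exact Z.lin m m' hm y y' e1 e2
    · have key : ∀ t, emb Z hvw β j (Z.δ m t) = emb Z hvw β j' (Z.δ m' t) →
          Z.δ m t = Z.δ m' t ∧ β.δ j (Z.δ m t) = β.δ j' (Z.δ m t) := by
        intro t ht
        have e := congrArg (rho Z hvw β) ht
        rw [rho_emb, rho_emb] at e
        refine ⟨e, ?_⟩
        rw [← e] at ht
        cases hh : emb Z hvw β j (Z.δ m t) with
        | inl z =>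
          have a1 := emb_inl Z hvw β hh
          rw [hh] at ht
          have a2 := emb_inl Z hvw β ht.symm
          rw [← a1.2, ← a2.2]
        | inr p =>
          have a1 := emb_inr Z hvw β hh
          rw [hh] at ht
          have a2 := emb_inr Z hvw β ht.symm
          exact absurd (congrArg Prod.fst (a1.symm.trans a2)) hj
      obtain ⟨e1, f1⟩ := key y h1
      obtain ⟨e2, f2⟩ := key y' h2
      have := β.lin j j' hj _ _ f1 f2
      exact Z.inj m this

theorem amg_adj {x y : Z.V} (h : Z.Phi.Adj x y) (j : β.M) :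
    (amg Z hvw β).Phi.Adj (emb Z hvw β j x) (emb Z hvw β j y) := by
  obtain ⟨m, t, t', rfl, rfl, h⟩ := h
  exact ⟨(j, m), t, t', rfl, rfl, h⟩

theorem amg_adj_inl (hP : P.Adj v w) {x y : β.V} (h : β.Phi.Adj x y) :
    (amg Z hvw β).Phi.Adj (.inl x) (.inl y) := by
  obtain ⟨j, t, t', rfl, rfl, h⟩ := h
  obtain ⟨m, ⟨rfl, rfl⟩ | ⟨rfl, rfl⟩⟩ := h
  · refine ⟨(j, m), v, w, ?_, ?_, hP⟩
    · exact (emb_of Z hvw β (Or.inl (Z.hp m v))).symm
    · exact (emb_of Z hvw β (Or.inr (Z.hp m w))).symm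
  · refine ⟨(j, m), w, v, ?_, ?_, hP.symm⟩
    · exact (emb_of Z hvw β (Or.inr (Z.hp m w))).symm
    · exact (emb_of Z hvw β (Or.inl (Z.hp m v))).symm

theorem emb_injective (j : β.M) : Injective (emb Z hvw β j) := by
  intro x y h
  rw [← rho_emb Z hvw β j x, h, rho_emb]

/-- The amalgam is robust for one more edge. -/
theorem amg_rob (hP : P.Adj v w) (n : ℕ) (E : Set (Sym2 Y)) (hZ : Z.Rob n E)
    (hβ : β.Rob n Set.univ) : (amg Z hvw β).Rob n (insert s(v, w) E) := by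
  intro c hc b
  by_cases hK : Kbb n (amg Z hvw β).Phi c b
  · exact Or.inl hK
  right
  rcases hβ (fun x y => c (.inl x) (.inl y)) (fun x y => hc _ _) b with h | ⟨j, hj⟩
  · exfalso
    obtain ⟨e, e', he, he', h⟩ := h
    exact hK ⟨fun i => .inl (e i), fun i => .inl (e' i), fun i i' h => he (Sum.inl.inj h),
      fun i i' h => he' (Sum.inl.inj h), fun i i' => ⟨amg_adj_inl Z hvw β hP (h i i').1,
        (h i i').2⟩⟩
  rcases hZ (fun x y => c (emb Z hvw β j x) (emb Z hvw β j y)) (fun x y => hc _ _) b with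
    h | ⟨m, hm⟩
  · exfalso
    obtain ⟨e, e', he, he', h⟩ := h
    exact hK ⟨fun i => emb Z hvw β j (e i), fun i => emb Z hvw β j (e' i),
      fun i i' h => he (emb_injective Z hvw β j h), fun i i' h => he' (emb_injective Z hvw β j h),
      fun i i' => ⟨amg_adj Z hvw β (h i i').1 j, (h i i').2⟩⟩
  refine ⟨(j, m), fun y y' hy hE => ?_⟩
  rcases hE with hE | hE
  · have h1 := hj _ _ (Z.Ge_of hvw m) (Set.mem_univ _)
    have e1 : emb Z hvw β j (Z.δ m v) = .inl (β.δ j (Z.δ m v)) :=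
      emb_of Z hvw β (Or.inl (Z.hp m v))
    have e2 : emb Z hvw β j (Z.δ m w) = .inl (β.δ j (Z.δ m w)) :=
      emb_of Z hvw β (Or.inr (Z.hp m w))
    rw [Sym2.eq_iff] at hE
    rcases hE with ⟨rfl, rfl⟩ | ⟨rfl, rfl⟩
    · change c (emb Z hvw β j (Z.δ m y)) (emb Z hvw β j (Z.δ m y')) = !b
      rw [e1, e2]
      exact h1
    · change c (emb Z hvw β j (Z.δ m y)) (emb Z hvw β j (Z.δ m y')) = !b
      rw [e1, e2]
      exact (hc _ _).trans h1
  · exact hm y y' hy hE

/-! ## Sparseness -/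

/-- The claim: tree graphs of `β` with marked edges give tree graphs of the amalgam. -/
theorem amg_claim (hP : P.Adj v w) (g : ℕ) (hZ : Z.Spa (g + 1)) {J : Set β.M} {Γ : β.V → β.V → Prop}
    {A : Set β.V} (h : TD β.δ (Z.Ge hvw) J Γ A) :
    ∀ (C : Finset (β.M × Z.M)) (E : Finset (β.V × β.V)), (∀ p ∈ C, p.1 ∈ J) →
      (∀ q ∈ E, Γ q.1 q.2) → C.card + E.card ≤ g + 1 →
      ∃ (S' : Set (β.M × Z.M)) (Γ' : AV Z hvw β → AV Z hvw β → Prop) (A' : Set (AV Z hvw β)),
        TD (amg Z hvw β).δ P S' Γ' A' ∧ (∀ p ∈ C, p ∈ S') ∧ (∀ p ∈ S', p.1 ∈ J) ∧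
        (∀ q ∈ E, Γ' (.inl q.1) (.inl q.2)) ∧ (∀ z, .inl z ∈ A' → z ∈ A) ∧
        ∀ j x, .inr (j, x) ∈ A' → j ∈ J := by
  classical
  induction h with
  | bod j =>
    intro C E hC hE hcard
    have hm : ∀ q ∈ E, ∃ m, (q.1 = β.δ j (Z.δ m v) ∧ q.2 = β.δ j (Z.δ m w)) ∨
        (q.1 = β.δ j (Z.δ m w) ∧ q.2 = β.δ j (Z.δ m v)) := by
      intro q hq
      obtain ⟨t, t', h1, h2, m, ⟨rfl, rfl⟩ | ⟨rfl, rfl⟩⟩ := hE q hq
      · exact ⟨m, Or.inl ⟨h1, h2⟩⟩
      · exact ⟨m, Or.inr ⟨h1, h2⟩⟩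
    choose mq hmq using hm
    have hle : (C.image Prod.snd ∪ E.attach.image (fun q => mq q.1 q.2)).card ≤ g + 1 := by
      have h1 := card_union_le (C.image Prod.snd) (E.attach.image (fun q => mq q.1 q.2))
      have h2 : (C.image Prod.snd).card ≤ C.card := card_image_le
      have h3 : (E.attach.image (fun q => mq q.1 q.2)).card ≤ E.attach.card := card_image_le
      rw [card_attach] at h3
      omega
    obtain ⟨S, Γ, A, hTD, hS⟩ := hZ _ hle
    have hmap := hTD.map (δ' := (amg Z hvw β).δ) (emb Z hvw β j) (rho Z hvw β)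
      (rho_emb Z hvw β j) (fun m => (j, m)) (fun m m' h => congrArg Prod.snd h)
      (fun m y => rfl)
    refine ⟨_, _, _, hmap, ?_, ?_, ?_, ?_, ?_⟩
    · intro p hp
      have h1 : p.1 = j := hC p hp
      refine ⟨p.2, hS _ (mem_union_left _ (mem_image_of_mem _ hp)), ?_⟩
      rw [← h1]
    · rintro _ ⟨m, _, rfl⟩
      exact rfl
    · intro q hq
      have h1 : mq q hq ∈ S := hS _ (mem_union_right _
        (mem_image.2 ⟨⟨q, hq⟩, mem_attach _ _, rfl⟩))
      have ev : emb Z hvw β j (Z.δ (mq q hq) v) = .inl (β.δ j (Z.δ (mq q hq) v)) :=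
        emb_of Z hvw β (Or.inl (Z.hp _ v))
      have ew : emb Z hvw β j (Z.δ (mq q hq) w) = .inl (β.δ j (Z.δ (mq q hq) w)) :=
        emb_of Z hvw β (Or.inr (Z.hp _ w))
      have hb := hTD.body _ h1 _ _ ⟨v, w, rfl, rfl, hP⟩
      rcases hmq q hq with ⟨e1, e2⟩ | ⟨e1, e2⟩
      · exact ⟨_, _, by rw [e1, ev], by rw [e2, ew], hb⟩
      · exact ⟨_, _, by rw [e1, ew], by rw [e2, ev], hTD.symm _ _ hb⟩
    · rintro z ⟨x, _, hx⟩
      have := emb_inl Z hvw β hx
      exact ⟨x, this.2.symm⟩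
    · rintro j' x ⟨x', _, hx⟩
      have := emb_inr Z hvw β hx
      exact congrArg Prod.fst this
  | bip Γ A f h hA hs =>
    intro C E hC hE hcard
    refine ⟨∅, fun x y => ∃ x0 y0, x = .inl x0 ∧ y = .inl y0 ∧ Γ x0 y0, Sum.inl '' A,
      TD.bip _ _ (fun x => Sum.elim f (fun _ => true) x) ?_ ?_ ?_, ?_, ?_, ?_, ?_, ?_⟩
    · rintro x y ⟨x0, y0, rfl, rfl, h'⟩
      exact h _ _ h'
    · rintro x y ⟨x0, y0, rfl, rfl, h'⟩
      exact ⟨⟨x0, (hA _ _ h').1, rfl⟩, ⟨y0, (hA _ _ h').2, rfl⟩⟩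
    · rintro x y ⟨x0, y0, rfl, rfl, h'⟩
      exact ⟨y0, x0, rfl, rfl, hs _ _ h'⟩
    · intro p hp
      exact absurd (hC p hp) (Set.notMem_empty _)
    · intro p hp
      exact absurd hp (Set.notMem_empty _)
    · intro q hq
      exact ⟨q.1, q.2, rfl, rfl, hE q hq⟩
    · rintro z ⟨x, hx, he⟩
      rw [← Sum.inl.inj he]
      exact hx
    · rintro j x ⟨x', _, hx⟩
      exact absurd hx (by simp)
  | @glu J1 J2 Γ1 Γ2 A1 A2 a b h1 h2 hd hA hab ih1 ih2 =>
    intro C E hC hE hcard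
    set C1 := C.filter (fun p => p.1 ∈ J1) with hC1
    set C2 := C.filter (fun p => ¬ p.1 ∈ J1) with hC2
    set E1 := E.filter (fun q => Γ1 q.1 q.2) with hE1
    set E2 := E.filter (fun q => ¬ Γ1 q.1 q.2) with hE2
    have c1 : C1.card + C2.card = C.card := card_filter_add_card_filter_not _
    have c2 : E1.card + E2.card = E.card := card_filter_add_card_filter_not _
    have m1 : ∀ p ∈ C1, p.1 ∈ J1 := fun p hp => (mem_filter.1 hp).2
    have m2 : ∀ p ∈ C2, p.1 ∈ J2 := fun p hp =>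
      (hC p (mem_filter.1 hp).1).resolve_left (mem_filter.1 hp).2
    have n1 : ∀ q ∈ E1, Γ1 q.1 q.2 := fun q hq => (mem_filter.1 hq).2
    have n2 : ∀ q ∈ E2, Γ2 q.1 q.2 := fun q hq =>
      (hE q (mem_filter.1 hq).1).resolve_left (mem_filter.1 hq).2
    by_cases z2 : C2.card + E2.card = 0
    · -- the second side is not needed
      obtain ⟨S', Γ', A', k1, k2, k3, k4, k5, k6⟩ := ih1 C E (by
          intro p hp
          by_contra hn
          have : p ∈ C2 := mem_filter.2 ⟨hp, hn⟩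
          have := card_pos.2 ⟨p, this⟩
          omega) (by
          intro q hq
          by_contra hn
          have : q ∈ E2 := mem_filter.2 ⟨hq, hn⟩
          have := card_pos.2 ⟨q, this⟩
          omega) hcard
      exact ⟨S', Γ', A', k1, k2, fun p hp => Or.inl (k3 p hp), k4, fun z hz => Or.inl (k5 z hz),
        fun j x hx => Or.inl (k6 j x hx)⟩
    by_cases z1 : C1.card + E1.card = 0
    · obtain ⟨S', Γ', A', k1, k2, k3, k4, k5, k6⟩ := ih2 C E (by
          intro p hp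
          by_cases hn : p.1 ∈ J1
          · have : p ∈ C1 := mem_filter.2 ⟨hp, hn⟩
            have := card_pos.2 ⟨p, this⟩
            omega
          · exact (hC p hp).resolve_left hn) (by
          intro q hq
          by_cases hn : Γ1 q.1 q.2
          · have : q ∈ E1 := mem_filter.2 ⟨hq, hn⟩
            have := card_pos.2 ⟨q, this⟩
            omega
          · exact (hE q hq).resolve_left hn) hcard
      exact ⟨S', Γ', A', k1, k2, fun p hp => Or.inr (k3 p hp), k4, fun z hz => Or.inr (k5 z hz),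
        fun j x hx => Or.inr (k6 j x hx)⟩
    obtain ⟨F1, F2, f1, f2, g1, g2, f3, f4, f5⟩ : ∃ F1 F2 : Finset (β.V × β.V), F1.card ≤ E1.card + 1 ∧
        F2.card ≤ E2.card + 1 ∧ (∀ q ∈ F1, Γ1 q.1 q.2) ∧ (∀ q ∈ F2, Γ2 q.1 q.2) ∧ E1 ⊆ F1 ∧
        E2 ⊆ F2 ∧ (a = b ∨ ((a, b) ∈ F1 ∧ (a, b) ∈ F2)) := by
      rcases hab with hab | ⟨ha, hb⟩
      · exact ⟨E1, E2, by omega, by omega, n1, n2, Subset.rfl, Subset.rfl, Or.inl hab⟩
      · refine ⟨insert (a, b) E1, insert (a, b) E2, card_insert_le _ _, card_insert_le _ _, ?_, ?_,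
          subset_insert _ _, subset_insert _ _, Or.inr ⟨mem_insert_self _ _,
            mem_insert_self _ _⟩⟩
        · intro q hq
          rcases mem_insert.1 hq with rfl | hq
          · exact ha
          · exact n1 q hq
        · intro q hq
          rcases mem_insert.1 hq with rfl | hq
          · exact hb
          · exact n2 q hq
    obtain ⟨S1, G1, B1, k1, k2, k3, k4, k5, k6⟩ := ih1 C1 F1 m1 g1 (by omega)
    obtain ⟨S2, G2, B2, l1, l2, l3, l4, l5, l6⟩ := ih2 C2 F2 m2 g2 (by omega)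
    refine ⟨_, _, _, TD.glu (.inl a) (.inl b) k1 l1 ?_ ?_ ?_, ?_, ?_, ?_, ?_, ?_⟩
    · intro p hp hp'
      exact hd _ (k3 p hp) (l3 p hp')
    · rintro (z | ⟨j, x⟩) hx hx'
      · rcases hA z (k5 z hx) (l5 z hx') with rfl | rfl
        · exact Or.inl rfl
        · exact Or.inr rfl
      · exact absurd (l6 j x hx') (hd _ (k6 j x hx))
    · rcases f5 with rfl | ⟨f6, f7⟩
      · exact Or.inl rfl
      · exact Or.inr ⟨k4 _ f6, l4 _ f7⟩
    · intro p hp
      by_cases hn : p.1 ∈ J1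
      · exact Or.inl (k2 p (mem_filter.2 ⟨hp, hn⟩))
      · exact Or.inr (l2 p (mem_filter.2 ⟨hp, hn⟩))
    · rintro p (hp | hp)
      · exact Or.inl (k3 p hp)
      · exact Or.inr (l3 p hp)
    · intro q hq
      by_cases hn : Γ1 q.1 q.2
      · exact Or.inl (k4 q (f3 (mem_filter.2 ⟨hq, hn⟩)))
      · exact Or.inr (l4 q (f4 (mem_filter.2 ⟨hq, hn⟩)))
    · rintro z (hz | hz)
      · exact Or.inl (k5 z hz)
      · exact Or.inr (l5 z hz)
    · rintro j x (hx | hx)
      · exact Or.inl (k6 j x hx)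
      · exact Or.inr (l6 j x hx)

/-- Bodies in different copies: glue them to a bipartite graph. -/
theorem amg_star (hP : P.Adj v w) (S : Finset (β.M × Z.M)) :
    (∀ p ∈ S, ∀ p' ∈ S, p.1 = p'.1 → p = p') →
    ∃ (S' : Set (β.M × Z.M)) (Γ' : AV Z hvw β → AV Z hvw β → Prop) (A' : Set (AV Z hvw β)),
      TD (amg Z hvw β).δ P S' Γ' A' ∧ (∀ p, p ∈ S ↔ p ∈ S') ∧
      (∀ x y, ((Z.part (β.part x) = v ∧ Z.part (β.part y) = w) ∨
        (Z.part (β.part x) = w ∧ Z.part (β.part y) = v)) → Γ' (.inl x) (.inl y)) ∧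
      ∀ j x, .inr (j, x) ∈ A' → ∃ p ∈ S, p.1 = j := by
  classical
  induction S using Finset.induction_on with
  | empty =>
    intro _
    refine ⟨∅, fun u u' => ∃ x y, u = .inl x ∧ u' = .inl y ∧
      ((Z.part (β.part x) = v ∧ Z.part (β.part y) = w) ∨
        (Z.part (β.part x) = w ∧ Z.part (β.part y) = v)), Set.range .inl,
      TD.bip _ _ (fun u => decide (Z.part (rho Z hvw β u) = v)) ?_ ?_ ?_, ?_, ?_, ?_⟩
    · rintro _ _ ⟨x, y, rfl, rfl, ⟨h1, h2⟩ | ⟨h1, h2⟩⟩
      · simp [rho, h1, h2, hvw.symm]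
      · simp [rho, h1, h2, hvw.symm]
    · rintro _ _ ⟨x, y, rfl, rfl, _⟩
      exact ⟨⟨x, rfl⟩, ⟨y, rfl⟩⟩
    · rintro _ _ ⟨x, y, rfl, rfl, h⟩
      exact ⟨y, x, rfl, rfl, h.symm.imp (fun h => ⟨h.2, h.1⟩) (fun h => ⟨h.2, h.1⟩)⟩
    · intro p
      simp
    · exact fun x y h => ⟨x, y, rfl, rfl, h⟩
    · rintro j x ⟨z, hz⟩
      exact absurd hz (by simp)
  | insert p S hp ih =>
    intro hS
    obtain ⟨S', Γ', A', k1, k2, k3, k4⟩ := ih (fun q hq q' hq' => hS q (mem_insert_of_mem hq) q'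
      (mem_insert_of_mem hq'))
    have ev : emb Z hvw β p.1 (Z.δ p.2 v) = .inl (β.δ p.1 (Z.δ p.2 v)) :=
      emb_of Z hvw β (Or.inl (Z.hp _ v))
    have ew : emb Z hvw β p.1 (Z.δ p.2 w) = .inl (β.δ p.1 (Z.δ p.2 w)) :=
      emb_of Z hvw β (Or.inr (Z.hp _ w))
    refine ⟨_, _, _, TD.glu (emb Z hvw β p.1 (Z.δ p.2 v)) (emb Z hvw β p.1 (Z.δ p.2 w)) k1
      (TD.bod p) ?_ ?_ ?_, ?_, ?_, ?_⟩
    · rintro q hq rfl
      exact hp ((k2 _).2 hq)
    · rintro _ hx ⟨t, rfl⟩
      have hx' : emb Z hvw β p.1 (Z.δ p.2 t) ∈ A' := hx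
      cases hh : emb Z hvw β p.1 (Z.δ p.2 t) with
      | inl z =>
        rcases (emb_inl Z hvw β hh).1 with h | h
        · rw [Z.hp] at h
          subst h
          exact Or.inl rfl
        · rw [Z.hp] at h
          subst h
          exact Or.inr rfl
      | inr q =>
        exfalso
        have e := emb_inr Z hvw β hh
        rw [hh, e] at hx'
        obtain ⟨p', hp', e'⟩ := k4 _ _ hx'
        have := hS p' (mem_insert_of_mem hp') p (mem_insert_self _ _) e'
        exact hp (this ▸ hp')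
    · refine Or.inr ⟨?_, v, w, rfl, rfl, hP⟩
      rw [ev, ew]
      refine k3 _ _ (Or.inl ?_)
      rw [β.hp, β.hp, Z.hp, Z.hp]
      exact ⟨rfl, rfl⟩
    · intro q
      rw [mem_insert]
      constructor
      · rintro (h | h)
        · exact Or.inr h
        · exact Or.inl ((k2 q).1 h)
      · rintro (h | h)
        · exact Or.inr ((k2 q).2 h)
        · exact Or.inl h
    · exact fun x y h => Or.inl (k3 x y h)
    · rintro j x (hx | ⟨t, ht⟩)
      · obtain ⟨q, hq, e⟩ := k4 j x hx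
        exact ⟨q, mem_insert_of_mem hq, e⟩
      · have e := emb_inr Z hvw β (show emb Z hvw β p.1 (Z.δ p.2 t) = _ from ht)
        exact ⟨p, mem_insert_self _ _, (congrArg Prod.fst e).symm⟩

/-- The amalgam is sparse. -/
theorem amg_spa (hP : P.Adj v w) (g : ℕ) (hZ : Z.Spa (g + 1)) (hβ : β.Spa g) :
    (amg Z hvw β).Spa (g + 1) := by
  classical
  intro S hS
  change Finset (β.M × Z.M) at S
  by_cases hJ : (S.image Prod.fst).card ≤ g
  · obtain ⟨J, Γ, A, hTD, hJS⟩ := hβ _ hJ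
    obtain ⟨S', Γ', A', k1, k2, -⟩ := amg_claim Z hvw β hP g hZ hTD S ∅
      (fun p hp => hJS _ (mem_image_of_mem _ hp)) (by simp) hS
    exact ⟨S', Γ', A', k1, k2⟩
  · have h1 : (S.image Prod.fst).card ≤ S.card := card_image_le
    have h2 : (S.image Prod.fst).card = S.card := by
      change S.card ≤ g + 1 at hS
      omega
    have h3 := card_image_iff.1 h2
    obtain ⟨S', Γ', A', k1, k2, -⟩ := amg_star Z hvw β hP S
      (fun p hp p' hp' e => h3 hp hp' e)
    exact ⟨S', Γ', A', k1, fun p hp => (k2 p).1 hp⟩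

end

/-! ## The induction -/

/-- One body. -/
def one {Y : Type} [Finite Y] (P : SimpleGraph Y) : Sys P where
  V := Y
  M := Unit
  fV := inferInstance
  fM := inferInstance
  δ _ y := y
  part y := y
  hp _ _ := rfl
  lin _ _ h := absurd rfl h

/-- Systems with the parameter `g` exist for all graphs. -/
def Ssl (g : ℕ) : Prop :=
  ∀ (Y : Type) [Finite Y] (P : SimpleGraph Y) (n : ℕ), ∃ Z : Sys P, Z.Spa g ∧ Z.Rob n Set.univ

theorem ssl_step (g : ℕ) (h : Ssl g) : Ssl (g + 1) := by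
  classical
  intro Y hY P n
  have := Fintype.ofFinite Y
  have key : ∀ E : Finset (Sym2 Y), ∃ Z : Sys P, Z.Spa (g + 1) ∧ Z.Rob n (E : Set (Sym2 Y)) := by
    intro E
    induction E using Finset.induction_on with
    | empty =>
      refine ⟨one P, ?_, ?_⟩
      · intro S _
        exact ⟨{()}, _, _, TD.bod (δ := (one P).δ) (P := P) (), fun m _ => rfl⟩
      · intro c hc b
        exact Or.inr ⟨(), fun y y' _ hE => absurd hE (by simp)⟩
    | insert e E he ih =>
      obtain ⟨Z, hZ1, hZ2⟩ := ih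
      induction e using Sym2.ind with
      | _ v w =>
        by_cases hP : P.Adj v w
        · have := Z.fV
          obtain ⟨β, hβ1, hβ2⟩ := h Z.V (Z.Ge hP.ne) n
          refine ⟨amg Z hP.ne β, amg_spa Z hP.ne β hP g hZ1 hβ1, ?_⟩
          rw [Finset.coe_insert]
          exact amg_rob Z hP.ne β hP n _ hZ2 hβ2
        · refine ⟨Z, hZ1, fun c hc b => ?_⟩
          rcases hZ2 c hc b with h | ⟨m, hm⟩
          · exact Or.inl h
          · refine Or.inr ⟨m, fun y y' hy hE => hm y y' hy ?_⟩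
            rw [Finset.coe_insert] at hE
            rcases hE with hE | hE
            · exfalso
              rw [Sym2.eq_iff] at hE
              rcases hE with ⟨rfl, rfl⟩ | ⟨rfl, rfl⟩
              · exact hP hy
              · exact hP hy.symm
            · exact hE
  obtain ⟨Z, h1, h2⟩ := key Finset.univ
  refine ⟨Z, h1, ?_⟩
  rw [Finset.coe_univ] at h2
  exact h2

theorem ssl_of_base (h : ∀ (Y : Type) [Finite Y] (P : SimpleGraph Y) (n : ℕ),
    ∃ Z : Sys P, Z.Rob n Set.univ) (g : ℕ) : Ssl g := by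
  induction g with
  | zero =>
    intro Y hY P n
    obtain ⟨Z, hZ⟩ := h Y P n
    refine ⟨Z, fun S hS => ?_, hZ⟩
    have : S = ∅ := Finset.card_eq_zero.1 (by omega)
    subst this
    exact ⟨∅, _, _, TD.nil _ _, by simp⟩
  | succ g ih => exact ssl_step g ih

end MP3240SSL
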