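import Pool.Agent.Lib.MP_3240be_co.SSL8.Dec
import Pool.Agent.Lib.MP_3240be_co.CO.Bpl

/-!
# MP_3240be_co: the property (EX) from sparse systems

`exc_one`: if `L` is not glued from parts of `H - X₀` and bipartite graphs, (EX) holds (the second
alternative).  `exc_num`: the numerical criterion with `Cl` instead of `Folds`.
-/

set_option autoImplicit false

namespace MP3240SSL

open Finset Function MP3240T MP3240W MP3240CO
open MP3240K (IsE)
open Pool.Agent.Lib.MP_3240be_co.H36 (LocCol Blow)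

/-- Assembling the graph of the worlds: `host 1 r` and a graph `B₂`. -/
theorem exb_sum {n d r hr hb b₂ : ℕ} (H : SimpleGraph (Fin n)) (L : SimpleGraph (Fin d))
    (X₀ : Finset (Fin n)) (hn : 0 < n) (hr1 : 1 ≤ r) (hL : L.Connected) (hLr : ¬ L.Colorable r)
    (B₂ : SimpleGraph (Fin b₂)) (hB₂ : ¬ Emb L B₂)
    (hex : ∀ c : Fin b₂ → Fin b₂ → Bool, (∀ x y, c x y = c y x) → ∀ b,
      Knn n B₂ c b ∨ Emb (H.induce {x | x ∉ X₀}) (cls B₂ c (!b)) ∨
      ∃ X X₂ : Finset (Fin n), Ind H X ∧ Ind H X₂ ∧ X.card + X₂.card < hr + hb + 2 ∧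
        Emb (H.induce {x | x ∉ X₂}) (cls B₂ c (!b)) ∧
        ∃ V : Fin r → Finset (Fin n), (∀ x, x ∉ X → ∃ a, x ∈ V a) ∧
          ∀ a, Emb (H.induce {x | x ∈ V a}) (cls B₂ c b)) :
    ∃ (b₀ : ℕ) (B : SimpleGraph (Fin b₀)), ExB H r hr hb L X₀ B := by
  classical
  have hL' : ∀ κ : Fin d → Fin r, ∃ a b, L.Adj a b ∧ κ a = κ b := by
    intro κ
    by_contra hcon
    push Not at hcon
    exact hLr ⟨κ, fun {a b} hab => hcon a b hab⟩
  obtain ⟨b₁, B₁, hB₁, hA₁⟩ := MP3240N.hb_proof n r d hr1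
  let Z : Type := Fin b₁ ⊕ Fin b₂
  let eZ : Z ≃ Fin (Fintype.card Z) := Fintype.equivFin Z
  let BZ : SimpleGraph Z := B₁ ⊕g B₂
  let B : SimpleGraph (Fin (Fintype.card Z)) := BZ.comap eZ.symm
  have hB : ∀ x y, BZ.Adj x y → B.Adj (eZ x) (eZ y) := by
    intro x y h
    change BZ.Adj (eZ.symm (eZ x)) (eZ.symm (eZ y))
    rwa [Equiv.symm_apply_apply, Equiv.symm_apply_apply]
  let i₁ : Fin b₁ → Fin (Fintype.card Z) := fun x => eZ (.inl x)
  let i₂ : Fin b₂ → Fin (Fintype.card Z) := fun x => eZ (.inr x)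
  have hi₁ : Function.Injective i₁ := fun x y h => by
    have := eZ.injective h
    exact Sum.inl_injective this
  have hi₂ : Function.Injective i₂ := fun x y h => by
    have := eZ.injective h
    exact Sum.inr_injective this
  have ha₁ : ∀ x y, B₁.Adj x y → B.Adj (i₁ x) (i₁ y) := fun x y h => hB _ _ h
  have ha₂ : ∀ x y, B₂.Adj x y → B.Adj (i₂ x) (i₂ y) := fun x y h => hB _ _ h
  have hbl : ∀ c : Fin (Fintype.card Z) → Fin (Fintype.card Z) → Bool, (∀ x y, c x y = c y x) →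
      ∃ A A', r + 1 ≤ A + A' ∧ Blow B c n A true ∧ Blow B c n A' false := by
    intro c hc
    obtain ⟨A, A', h1, ⟨F, hF1, hF2⟩, ⟨F', hF1', hF2'⟩⟩ :=
      hA₁ (fun x y => c (i₁ x) (i₁ y)) fun x y => hc _ _
    exact ⟨A, A', h1, ⟨fun a u => i₁ (F a u), fun a u w h => hF1 a (hi₁ h),
      fun a a' h u w => ⟨ha₁ _ _ (hF2 a a' h u w).1, (hF2 a a' h u w).2⟩⟩,
      ⟨fun a u => i₁ (F' a u), fun a u w h => hF1' a (hi₁ h),
      fun a a' h u w => ⟨ha₁ _ _ (hF2' a a' h u w).1, (hF2' a a' h u w).2⟩⟩⟩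
  -- a vertex
  obtain ⟨z₀⟩ : Nonempty (Fin (Fintype.card Z)) := by
    obtain ⟨A, A', h1, ⟨F, -, -⟩, ⟨F', -, -⟩⟩ := hbl (fun _ _ => true) fun _ _ => rfl
    rcases Nat.eq_zero_or_pos A with rfl | h2
    · exact ⟨F' ⟨0, by omega⟩ ⟨0, hn⟩⟩
    · exact ⟨F ⟨0, h2⟩ ⟨0, hn⟩⟩
  have hcop : ∀ (c : Fin (Fintype.card Z) → Fin (Fintype.card Z) → Bool) (b : Bool)
      (S : Set (Fin n)) (S' : Finset (Fin n)), (∀ x, x ∈ S' → x ∈ S) →
      Emb (H.induce S) (cls B₂ (fun x y => c (i₂ x) (i₂ y)) b) → CopV H B c b S' := by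
    rintro c b S S' hS ⟨f, hf, hA⟩
    refine ⟨fun x => if h : x ∈ S then i₂ (f ⟨x, h⟩) else z₀, ?_, ?_⟩
    · intro x hx y hy hxy
      simp only [hS x hx, hS y hy, dif_pos] at hxy
      exact congrArg Subtype.val (hf (hi₂ hxy))
    · intro x hx y hy hxy
      simp only [hS x hx, hS y hy, dif_pos]
      have h3 := hA ⟨x, hS x hx⟩ ⟨y, hS y hy⟩ hxy
      exact ⟨ha₂ _ _ h3.1, h3.2.1⟩
  refine ⟨Fintype.card Z, B, ?_, hbl, ?_⟩
  · rintro ⟨f, hf, hA⟩
    have h1 : Emb L BZ := ⟨fun i => eZ.symm (f i), fun i j h => hf (eZ.symm.injective h),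
      fun i j h => hA i j h⟩
    rcases emb_sum hL h1 with h2 | h2
    · obtain ⟨g, hg, hgA⟩ := h2
      obtain ⟨κ, hκ1, hκ2⟩ := hB₁ (univ.image g) (card_image_le.trans (by simp))
      obtain ⟨a, b, hab, h3⟩ := hL' fun i => ⟨κ (g i), hκ1 _⟩
      exact hκ2 (g a) (mem_image_of_mem _ (mem_univ _)) (g b) (mem_image_of_mem _ (mem_univ _))
        (hgA a b hab) (by simpa using h3)
    · exact hB₂ h2
  · intro c hc b
    rcases hex (fun x y => c (i₂ x) (i₂ y)) (fun x y => hc _ _) b with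
      ⟨f, g, hf, hg, hfg⟩ | h2 | ⟨X, X₂, h3, h4, h5, h6, V, h7, h8⟩
    · left
      exact ⟨fun k => i₂ (f k), fun k => i₂ (g k), fun k l h => hf (hi₂ h),
        fun k l h => hg (hi₂ h), fun k l => ⟨ha₂ _ _ (hfg k l).1, (hfg k l).2⟩⟩
    · right
      left
      exact hcop c (!b) {x | x ∉ X₀} X₀ᶜ (fun x hx => mem_compl.1 hx) h2
    · right
      right
      exact ⟨X, X₂, h3, h4, h5, hcop c (!b) {x | x ∉ X₂} X₂ᶜ (fun x hx => mem_compl.1 hx) h6, V,
        h7, fun a => hcop c b {x | x ∈ V a} (V a) (fun x hx => hx) (h8 a)⟩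

/-- (EX) for `L` not in `Cl (H - X₀)`. -/
theorem exc_one (hS : ∀ g, Ssl g) {n d r : ℕ} (hr hb : ℕ) (H : SimpleGraph (Fin n))
    (L : SimpleGraph (Fin d)) (X₀ : Finset (Fin n)) (hn : 0 < n) (hr1 : 1 ≤ r)
    (hL : L.Connected) (hLr : ¬ L.Colorable r) (hC : ¬ Cl (H.induce {x | x ∉ X₀}) L) :
    ∃ (b₀ : ℕ) (B : SimpleGraph (Fin b₀)), ExB H r hr hb L X₀ B := by
  have := hL.nonempty
  have : Finite ({x | x ∉ X₀} : Set (Fin n)) := Subtype.finite
  obtain ⟨b₂, B₂, h1, h2⟩ := Ssl.exists_free hS (H.induce {x | x ∉ X₀}) L hC n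
  refine exb_sum H L X₀ hn hr1 hL hLr B₂ h1 fun c hc b => ?_
  rcases h2 c hc b with h | h
  · exact Or.inl h
  · exact Or.inr (Or.inl h)

/-- The numerical criterion with `Cl`. -/
theorem exc_num (hS : ∀ g, Ssl g) (hT : ThtStatement) {n d r : ℕ} (hr hb : ℕ)
    (H : SimpleGraph (Fin n)) (L : SimpleGraph (Fin d)) (X₀ X X₂ : Finset (Fin n)) (hn : 0 < n)
    (hr1 : 1 ≤ r) (hd : 3 ≤ d) (h2L : TwoC (ed L)) (hL : L.Connected) (hLr : ¬ L.Colorable r)
    (hX₀ : Meets H L X₀) (hX : Ind H X) (hX₂ : Ind H X₂) (hcard : X.card + X₂.card < hr + hb + 2)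
    (hV : ∃ V : Fin r → Finset (Fin n), (∀ x, x ∉ X → ∃ a, x ∈ V a) ∧
      ∀ a, (H.induce {x | x ∈ V a}).IsAcyclic)
    (hC : ¬ Cl (H.induce {x | x ∉ X₂}) L) :
    ∃ (b₀ : ℕ) (B : SimpleGraph (Fin b₀)), ExB H r hr hb L X₀ B := by
  classical
  have := hL.nonempty
  obtain ⟨V, hVc, hVa⟩ := hV
  have : Finite ({x | x ∉ X₂} : Set (Fin n)) := Subtype.finite
  obtain ⟨b₂, B₂, hB₂, hA₂⟩ := Ssl.exists_free hS (H.induce {x | x ∉ X₂}) L hC n
  let Y : Type := ({x | x ∉ X₀} : Set (Fin n))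
  let _ : Fintype Y := Fintype.ofFinite Y
  let eY : Y ≃ Fin (Fintype.card Y) := Fintype.equivFin Y
  let T₀ : SimpleGraph (Fin (Fintype.card Y)) := (H.induce {x | x ∉ X₀}).comap eY.symm
  have hT₀ : ¬ Emb L T₀ := by
    rintro ⟨f, hf, hA⟩
    obtain ⟨i, hi⟩ := hX₀ (fun i => (eY.symm (f i)).1)
      ⟨fun i j h => hf (eY.symm.injective (Subtype.ext h)), fun i j h => hA i j h⟩
    exact (eY.symm (f i)).2 hi
  obtain ⟨b₃, B₃, hB₃, hA₃⟩ := hT n d _ L T₀ h2L hL hd hT₀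
  let Z : Type := Fin b₂ ⊕ Fin b₃
  let eZ : Z ≃ Fin (Fintype.card Z) := Fintype.equivFin Z
  let BZ : SimpleGraph Z := B₂ ⊕g B₃
  have hB : ∀ x y, BZ.Adj x y → (BZ.comap eZ.symm).Adj (eZ x) (eZ y) := by
    intro x y h
    change BZ.Adj (eZ.symm (eZ x)) (eZ.symm (eZ y))
    rwa [Equiv.symm_apply_apply, Equiv.symm_apply_apply]
  have hi₂ : Function.Injective (fun x : Fin b₂ => eZ (.inl x)) := fun x y h => by
    have := eZ.injective h
    exact Sum.inl_injective this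
  have hi₃ : Function.Injective (fun x : Fin b₃ => eZ (.inr x)) := fun x y h => by
    have := eZ.injective h
    exact Sum.inr_injective this
  refine exb_sum H L X₀ hn hr1 hL hLr (BZ.comap eZ.symm) ?_ ?_
  · rintro ⟨f, hf, hA⟩
    have h1 : Emb L BZ := ⟨fun i => eZ.symm (f i), fun i j h => hf (eZ.symm.injective h),
      fun i j h => hA i j h⟩
    rcases emb_sum hL h1 with h2 | h2
    · exact hB₂ h2
    · exact hB₃ h2
  · intro c hc b
    rcases hA₂ (fun x y => c (eZ (.inl x)) (eZ (.inl y))) (fun x y => hc _ _) b with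
      ⟨f, g, hf, hg, hfg⟩ | ⟨f, hf, hfA⟩
    · left
      exact ⟨fun k => eZ (.inl (f k)), fun k => eZ (.inl (g k)), fun k l h => hf (hi₂ h),
        fun k l h => hg (hi₂ h), fun k l => ⟨hB _ _ (hfg k l).1, (hfg k l).2⟩⟩
    · right
      rcases hA₃ (fun x y => c (eZ (.inr x)) (eZ (.inr y))) (fun x y => hc _ _) b with
        ⟨g, hg, hgA⟩ | h2
      · left
        refine ⟨fun x => eZ (.inr (g (eY x))), fun x y h => eY.injective (hg (hi₃ h)),
          fun x y hxy => ?_⟩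
        have h3 := hgA (eY x) (eY y) (by
          change (H.induce {x | x ∉ X₀}).Adj (eY.symm (eY x)) (eY.symm (eY y))
          rwa [Equiv.symm_apply_apply, Equiv.symm_apply_apply])
        exact ⟨hB _ _ h3.1, h3.2.1, h3.2.2⟩
      · right
        refine ⟨X, X₂, hX, hX₂, hcard, ?_, V, hVc, ?_⟩
        · refine ⟨fun x => eZ (.inl (f x)), fun x y h => hf (hi₂ h), fun x y hxy => ?_⟩
          have h3 := hfA x y hxy
          exact ⟨hB _ _ h3.1, h3.2.1, h3.2.2⟩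
        · intro k
          obtain ⟨g, hg, hgA⟩ := h2 (ins H (V k)) (ins_acyclic (hVa k))
          refine ⟨fun x => eZ (.inr (g x.1)), fun x y h => Subtype.ext (hg (hi₃ h)),
            fun x y hxy => ?_⟩
          have h3 := hgA x.1 y.1 ⟨hxy, x.2, y.2⟩
          exact ⟨hB _ _ h3.1, h3.2.1, h3.2.2⟩

end MP3240SSL
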