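import Pool.Agent.Lib.MP_3240be_co.SSL8.Amg
import Pool.Agent.Lib.MP_3240be_co.CO.Base

/-!
# MP_3240be_co: sparse systems (helper70, finding 4819), subgraphs of small size

`Cl T D`: `D` is contained in a graph obtained from subgraphs of `T` and bipartite graphs by gluing
along a vertex or an edge (the edge is in both parts).  If `D` is not in `Cl T`, there is a finite
`D`-free graph such that every colouring without complete bipartite graphs of colour `b` has a copy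
of `T` of colour `!b`.
-/

set_option autoImplicit false

namespace MP3240SSL

open Finset Function MP3240T

/-- Graphs glued from parts of `T` and bipartite graphs, on the set `A`. -/
inductive Dec {X Y : Type} (T : SimpleGraph Y) : (X → X → Prop) → Set X → Prop
  | body (R : X → X → Prop) (A : Set X) (f : X → Y) (hf : Set.InjOn f A)
      (hR : ∀ x y, R x y → x ∈ A ∧ y ∈ A ∧ T.Adj (f x) (f y)) : Dec T R A
  | bip (R : X → X → Prop) (A : Set X) (f : X → Bool)
      (hR : ∀ x y, R x y → x ∈ A ∧ y ∈ A ∧ f x ≠ f y) : Dec T R A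
  | glue {R1 R2 : X → X → Prop} {A1 A2 : Set X} (a b : X) (h1 : Dec T R1 A1) (h2 : Dec T R2 A2)
      (hA : ∀ x, x ∈ A1 → x ∈ A2 → x = a ∨ x = b) (hab : a = b ∨ (R1 a b ∧ R2 a b)) :
      Dec T (fun x y => R1 x y ∨ R2 x y) (A1 ∪ A2)

/-- `D` is glued from parts of `T` and bipartite graphs. -/
def Cl {X Y : Type} (T : SimpleGraph Y) (D : SimpleGraph X) : Prop :=
  ∃ (R : X → X → Prop) (A : Set X), Dec T R A ∧ ∀ x y, D.Adj x y → R x y

/-- The gluing step for the preimages under an injective map. -/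
theorem Dec.glue_pre {X V Y : Type} [Nonempty X] {T : SimpleGraph Y} (f : X → V)
    (hf : Injective f) {R1 R2 : V → V → Prop} {A1 A2 : Set V} (a b : V)
    (h1 : Dec T (fun x y => R1 (f x) (f y)) (f ⁻¹' A1))
    (h2 : Dec T (fun x y => R2 (f x) (f y)) (f ⁻¹' A2))
    (hA : ∀ x, x ∈ A1 → x ∈ A2 → x = a ∨ x = b) (hab : a = b ∨ (R1 a b ∧ R2 a b)) :
    Dec T (fun x y => R1 (f x) (f y) ∨ R2 (f x) (f y)) (f ⁻¹' (A1 ∪ A2)) := by
  rw [Set.preimage_union]
  by_cases ha : ∃ x, f x = a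
  · obtain ⟨a, rfl⟩ := ha
    by_cases hb : ∃ x, f x = b
    · obtain ⟨b, rfl⟩ := hb
      refine Dec.glue a b h1 h2 (fun x hx hx' => ?_) ?_
      · rcases hA (f x) hx hx' with h | h
        · exact Or.inl (hf h)
        · exact Or.inr (hf h)
      · rcases hab with h | h
        · exact Or.inl (hf h)
        · exact Or.inr h
    · refine Dec.glue a a h1 h2 (fun x hx hx' => ?_) (Or.inl rfl)
      rcases hA (f x) hx hx' with h | h
      · exact Or.inl (hf h)
      · exact absurd ⟨x, h⟩ hb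
  · by_cases hb : ∃ x, f x = b
    · obtain ⟨b, rfl⟩ := hb
      refine Dec.glue b b h1 h2 (fun x hx hx' => ?_) (Or.inl rfl)
      rcases hA (f x) hx hx' with h | h
      · exact absurd ⟨x, h⟩ ha
      · exact Or.inl (hf h)
    · obtain ⟨x₀⟩ := ‹Nonempty X›
      refine Dec.glue x₀ x₀ h1 h2 (fun x hx hx' => ?_) (Or.inl rfl)
      rcases hA (f x) hx hx' with h | h
      · exact absurd ⟨x, h⟩ ha
      · exact absurd ⟨x, h⟩ hb

theorem Dec.comap {X V Y : Type} [Nonempty X] {T : SimpleGraph Y} (f : X → V) (hf : Injective f)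
    {R : V → V → Prop} {A : Set V} (h : Dec T R A) :
    Dec T (fun x y => R (f x) (f y)) (f ⁻¹' A) := by
  induction h with
  | body R A g hg hR =>
    exact Dec.body _ _ (fun x => g (f x)) (fun x hx y hy h => hf (hg hx hy h))
      (fun x y h => hR _ _ h)
  | bip R A g hR => exact Dec.bip _ _ (fun x => g (f x)) (fun x y h => hR _ _ h)
  | glue a b h1 h2 hA hab ih1 ih2 => exact Dec.glue_pre f hf a b ih1 ih2 hA hab

/-- `Cl` is closed under subgraphs. -/
theorem Cl.mono {X V Y : Type} [Nonempty X] {T : SimpleGraph Y} {D : SimpleGraph X}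
    {D' : SimpleGraph V} (h : Cl T D') (hD : Emb D D') : Cl T D := by
  obtain ⟨R, A, h1, h2⟩ := h
  obtain ⟨f, hf, hA⟩ := hD
  exact ⟨_, _, h1.comap f hf, fun x y hxy => h2 _ _ (hA x y hxy)⟩

/-- Larger graphs `T`. -/
theorem Dec.map {X Y Y' : Type} {T : SimpleGraph Y} {T' : SimpleGraph Y'} (hT : Emb T T')
    {R : X → X → Prop} {A : Set X} (h : Dec T R A) : Dec T' R A := by
  obtain ⟨e, he, hA⟩ := hT
  induction h with
  | body R A g hg hR =>
    exact Dec.body _ _ (fun x => e (g x)) (fun x hx y hy h => hg hx hy (he h))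
      (fun x y h => ⟨(hR x y h).1, (hR x y h).2.1, hA _ _ (hR x y h).2.2⟩)
  | bip R A g hR => exact Dec.bip _ _ g hR
  | glue a b h1 h2 hA hab ih1 ih2 => exact Dec.glue a b ih1 ih2 hA hab

theorem Cl.map {X Y Y' : Type} {T : SimpleGraph Y} {T' : SimpleGraph Y'} {D : SimpleGraph X}
    (h : Cl T D) (hT : Emb T T') : Cl T' D := by
  obtain ⟨R, A, h1, h2⟩ := h
  exact ⟨R, A, h1.map hT, h2⟩

/-- Tree graphs of a system. -/
theorem Sys.dec {X Y : Type} [Nonempty X] {P : SimpleGraph Y} (Z : Sys P) (f : X → Z.V)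
    (hf : Injective f) {S : Set Z.M} {Γ : Z.V → Z.V → Prop} {A : Set Z.V}
    (h : TD Z.δ P S Γ A) : Dec P (fun x y => Γ (f x) (f y)) (f ⁻¹' A) := by
  induction h with
  | bod m =>
    refine Dec.body _ _ (fun x => Z.part (f x)) ?_ ?_
    · rintro x ⟨t, ht⟩ y ⟨t', ht'⟩ h
      have h : Z.part (f x) = Z.part (f y) := h
      rw [← ht, ← ht', Z.hp, Z.hp] at h
      apply hf
      rw [← ht, ← ht', h]
    · rintro x y ⟨t, t', h1, h2, h3⟩
      refine ⟨⟨t, h1.symm⟩, ⟨t', h2.symm⟩, ?_⟩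
      rw [h1, h2, Z.hp, Z.hp]
      exact h3
  | bip Γ A g h hA hs =>
    exact Dec.bip _ _ (fun x => g (f x)) (fun x y h' => ⟨(hA _ _ h').1, (hA _ _ h').2, h _ _ h'⟩)
  | glu a b h1 h2 hd hA hab ih1 ih2 => exact Dec.glue_pre f hf a b ih1 ih2 hA hab

/-- A system for `T` without `D`. -/
theorem Ssl.free {X Y : Type} [Finite X] [Nonempty X] [Finite Y] (hS : ∀ g, Ssl g)
    (T : SimpleGraph Y) (D : SimpleGraph X) (hD : ¬ Cl T D) (n : ℕ) :
    ∃ Z : Sys T, ¬ Emb D Z.Phi ∧ Z.Rob n Set.univ := by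
  classical
  have := Fintype.ofFinite X
  obtain ⟨Z, h1, h2⟩ := hS (Fintype.card (X × X)) Y T n
  refine ⟨Z, ?_, h2⟩
  rintro ⟨f, hf, hA⟩
  apply hD
  have hm : ∀ q : X × X, ∃ S : Finset Z.M, S.card ≤ 1 ∧
      (D.Adj q.1 q.2 → ∃ m ∈ S, Bod Z.δ T m (f q.1) (f q.2)) := by
    intro q
    by_cases hq : D.Adj q.1 q.2
    · obtain ⟨m, hm⟩ := hA _ _ hq
      exact ⟨{m}, by simp, fun _ => ⟨m, by simp, hm⟩⟩
    · exact ⟨∅, by simp, fun h => absurd h hq⟩
  choose S hS1 hS2 using hm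
  obtain ⟨S', Γ, A, k1, k2⟩ := h1 (univ.biUnion S) (by
    refine card_biUnion_le.trans ?_
    calc ∑ q : X × X, (S q).card ≤ ∑ _q : X × X, 1 := sum_le_sum fun q _ => hS1 q
      _ = Fintype.card (X × X) := by simp)
  refine ⟨_, _, Z.dec f hf k1, fun x y hxy => ?_⟩
  obtain ⟨m, hm, hb⟩ := hS2 (x, y) hxy
  exact k1.body m (k2 m (mem_biUnion.2 ⟨_, mem_univ _, hm⟩)) _ _ hb

/-- Corollary C1. -/
theorem Ssl.exists_free {X Y : Type} [Finite X] [Nonempty X] [Finite Y] (hS : ∀ g, Ssl g)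
    (T : SimpleGraph Y) (D : SimpleGraph X) (hD : ¬ Cl T D) (n : ℕ) :
    ∃ (b₀ : ℕ) (B : SimpleGraph (Fin b₀)), ¬ Emb D B ∧
      ∀ c : Fin b₀ → Fin b₀ → Bool, (∀ x y, c x y = c y x) → ∀ b,
        MP3240CO.Knn n B c b ∨ Emb T (cls B c (!b)) := by
  classical
  obtain ⟨Z, h1, h2⟩ := Ssl.free hS T D hD n
  have := Z.fV
  have := Fintype.ofFinite Z.V
  let e : Z.V ≃ Fin (Fintype.card Z.V) := Fintype.equivFin Z.V
  refine ⟨Fintype.card Z.V, Z.Phi.comap e.symm, ?_, ?_⟩
  · rintro ⟨f, hf, hA⟩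
    exact h1 ⟨fun x => e.symm (f x), fun x y h => hf (e.symm.injective h), fun x y h => hA x y h⟩
  · intro c hc b
    rcases h2 (fun x y => c (e x) (e y)) (fun x y => hc _ _) b with ⟨f, g, hf, hg, h⟩ | ⟨m, hm⟩
    · left
      refine ⟨fun i => e (f i), fun i => e (g i), fun i j h => hf (e.injective h),
        fun i j h => hg (e.injective h), fun i j => ⟨?_, (h i j).2⟩⟩
      change Z.Phi.Adj (e.symm (e (f i))) (e.symm (e (g j)))
      rw [e.symm_apply_apply, e.symm_apply_apply]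
      exact (h i j).1
    · right
      refine ⟨fun y => e (Z.δ m y), fun y y' h => Z.inj m (e.injective h), fun y y' hy => ?_⟩
      refine ⟨?_, hm y y' hy (Set.mem_univ _), hm y' y hy.symm (Set.mem_univ _)⟩
      change Z.Phi.Adj (e.symm (e _)) (e.symm (e _))
      rw [e.symm_apply_apply, e.symm_apply_apply]
      exact ⟨m, y, y', rfl, rfl, hy⟩

end MP3240SSL
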